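import Pool.Agent.E8helper61.Mag.Graph
import Pool.Agent.E8helper61.Mag.Main
import Pool.Agent.E8helper15.MAG.C2
import Pool.Agent.E8helper97.MagP.C1
import Pool.Agent.E8helper73.MagTR.Trans

/-!
# Q1: the magnitude homology of the tope graph of a real arrangement is torsion-free

Definitions (all in `Pool.Agent.E8helper61.Mag.Defs` and `Pool.Agent.E8helper61.Mag.Graph`):

* `H61Mag.Arrangement d`: a finite set of linear hyperplanes of `ℝ^d`;
* `H61Mag.Arrangement.Chamber`: the connected components of the complement;
* `H61Mag.Arrangement.topeGraph`: two chambers are adjacent iff exactly one hyperplane of the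
  arrangement separates them;
* `H61Mag.MH G k ℓ`: the magnitude homology group `MH_{k,ℓ}(G)` of a graph `G`: the kernel of
  `∂ = ∑_{0<i<k} (-1)^i ∂_i` on `MC_{k,ℓ}` (the free abelian group on the tuples `(x_0, ..., x_k)`
  with `x_{i-1} ≠ x_i` and total length `ℓ` for the graph distance), modulo the image of
  `∂ : MC_{k+1,ℓ} → MC_{k,ℓ}`.

Proof.  The complex splits according to the end points `x, y` and the number `m H` of times each
hyperplane `H` is crossed.  By induction on the sum of `m`, the homology of the piece `(x, y, m)` is
(up to a shift) that of the piece `(x', y, m - 1_B)` if `B`, the support of `m`, is the set of the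
hyperplanes containing some face of `x`, where `x'` is the chamber opposite to `x` across that face;
otherwise it is zero.  So every piece has homology `0` or `ℤ` in one degree.  The two geometric
inputs are: the poset of the faces of `x` visible from another chamber is acyclic, and the set of
chambers around a face is gated.
-/

namespace Pool.Agent.Results.MP_95f31c_co.TopeMagnitudeTorsionFreeH61

open H61Mag

/-- For every arrangement `A` of linear hyperplanes in `ℝ^d` and all `k, ℓ`, the magnitude homology
group `MH_{k,ℓ}` of the tope graph of `A` has no nonzero element of finite order. -/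
theorem result (d : ℕ) (A : Arrangement d) (k ℓ : ℕ) (n : ℤ) (h : MH A.topeGraph k ℓ)
    (hn : n ≠ 0) (hnh : n • h = 0) : h = 0 :=
  t_TR t_C1 (Pool.Agent.E8helper15.MAG.t_C2 t_C1) t_MAIN d A k ℓ n h hn hnh

end Pool.Agent.Results.MP_95f31c_co.TopeMagnitudeTorsionFreeH61
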